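import Pool.Agent.Helper94.KC.Goals

/-!
Packet KC-GL.
-/

set_option autoImplicit false

namespace Pool.Agent.Helper22.KC

open scoped Classical
open Finset Pool.Agent.Helper94.KC

/-- rotating a triangle: adjacency in the link -/
theorem lk_rot {V : Type} {T : Finset (Finset V)} {u x w : V} (h : (lk T u).Adj x w) :
    (lk T x).Adj u w := by
  obtain ⟨h1, h2, h3, t, ht, h4, h5, h6⟩ := h
  exact ⟨fun h => h3 h.symm, fun h => h2 h.symm, fun h => h1 h.symm, t, ht, h5, h4, h6⟩

/-- closure along reachability -/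
theorem reach_closed {V : Type} {G : SimpleGraph V} {P : V → Prop}
    (hP : ∀ a b, P a → G.Adj a b → P b) {a b : V} (h : G.Reachable a b) (ha : P a) : P b := by
  obtain ⟨w⟩ := h
  induction w with
  | nil => exact ha
  | cons hadj _ ih => exact ih (hP _ _ ha hadj)

section

variable {V : Type} [Fintype V] {T : Finset (Finset V)} {R : Finset V}

theorem claimA (hL1 : StmtL1) (hGH : StmtGH) (hS : Surf T)
    (hub : ∀ v x y, (sk T).Adj v x → (sk T).Adj v y → 7 ≤ dg T x → 7 ≤ dg T y → x = y)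
    (h5 : ∀ x ∈ R, 5 ≤ dR (sk T) R x) {u x u' : V} (hu : u ∉ R) (hx : x ∈ R) (hu' : u' ∉ R)
    (hl : (lk T u).Adj x u') : ∀ w, (lk T u).Adj x w → w ∉ R := by
  obtain ⟨hc, had, hev⟩ := hL1 V T hS
  intro w hw hwR
  set A : Finset V := univ.filter (fun y => y ∈ R ∧ (sk T).Adj u y) with hA
  have hAadj : ∀ y ∈ A, (sk T).Adj u y := fun y hy => (mem_filter.1 hy).2.2
  have heven := hev u A hAadj
  -- all pairs have first component x
  have hub' : ∀ y z, y ∈ A → z ∉ R → (lk T u).Adj y z → 7 ≤ dg T y := by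
    intro y z hy hz hyz
    exact hGH V T R y u z (h5 y (mem_filter.1 hy).2.1) hu hz (lk_rot hyz) hS
  have hxA : x ∈ A := mem_filter.2 ⟨mem_univ _, hx, (had u x u' hl).1⟩
  have hxhub : 7 ≤ dg T x := hub' x u' hxA hu' hl
  have hne : u' ≠ w := fun h => hu' (h ▸ hwR)
  have hlink : ∀ z, (lk T u).Adj x z → z = u' ∨ z = w := by
    intro z hz
    by_contra hcon
    push Not at hcon
    have h2 : dR (lk T u) univ x = 2 := hc u x (had u x u' hl).1
    have h3 : ({z, u', w} : Finset V) ⊆ univ.filter (fun y => (lk T u).Adj x y) := by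
      intro y hy
      simp only [mem_insert, mem_singleton] at hy
      rcases hy with rfl | rfl | rfl
      · exact mem_filter.2 ⟨mem_univ _, hz⟩
      · exact mem_filter.2 ⟨mem_univ _, hl⟩
      · exact mem_filter.2 ⟨mem_univ _, hw⟩
    have h4 := card_le_card h3
    have h5' : ({z, u', w} : Finset V).card = 3 := by
      rw [card_eq_three]
      exact ⟨z, u', w, hcon.1, hcon.2, hne, rfl⟩
    unfold dR at h2
    omega
  have hP : ((A ×ˢ (univ \ A)).filter (fun q => (lk T u).Adj q.1 q.2)) = {(x, u')} := by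
    ext ⟨y, z⟩
    simp only [mem_filter, mem_product, mem_sdiff, mem_univ, true_and, mem_singleton,
      Prod.mk.injEq]
    constructor
    · rintro ⟨⟨hy, hz⟩, hyz⟩
      have hzR : z ∉ R := by
        intro hzR
        exact hz (mem_filter.2 ⟨mem_univ _, hzR, (had u y z hyz).2.1⟩)
      have hyx : y = x := hub u y x (hAadj y hy) (hAadj x hxA) (hub' y z hy hzR hyz) hxhub
      refine ⟨hyx, ?_⟩
      rw [hyx] at hyz
      rcases hlink z hyz with h | h
      · exact h
      · exact absurd (h ▸ hwR) hzR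
    · rintro ⟨rfl, rfl⟩
      exact ⟨⟨hxA, fun h => hu' (mem_filter.1 h).2.1⟩, hl⟩
  rw [hP] at heven
  simp at heven

theorem claimB (hL1 : StmtL1) (hGH : StmtGH) (hS : Surf T)
    (hub : ∀ v x y, (sk T).Adj v x → (sk T).Adj v y → 7 ≤ dg T x → 7 ≤ dg T y → x = y)
    (h5 : ∀ x ∈ R, 5 ≤ dR (sk T) R x) {u x u' : V} (hu : u ∉ R) (hx : x ∈ R) (hu' : u' ∉ R) :
    ¬ (lk T x).Adj u u' := by
  intro hl
  obtain ⟨hc, had, hev⟩ := hL1 V T hS
  have hclosed : ∀ a b, (a ∉ R ∧ ∃ a' ∉ R, (lk T x).Adj a a') → (lk T x).Adj a b →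
      (b ∉ R ∧ ∃ b' ∉ R, (lk T x).Adj b b') := by
    rintro a b ⟨ha, a', ha', haa⟩ hab
    have := claimA hL1 hGH hS hub h5 ha hx ha' (lk_rot haa) b (lk_rot hab)
    exact ⟨this, a, ha, hab.symm⟩
  have hall : ∀ y, (sk T).Adj x y → y ∉ R := by
    intro y hy
    exact (reach_closed hclosed (hS.link x u y (had x u u' hl).1 hy) ⟨hu, u', hu', hl⟩).1
  have h := h5 x hx
  have h0 : dR (sk T) R x = 0 := by
    unfold dR
    rw [card_eq_zero, filter_eq_empty_iff]
    intro y hy hadj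
    exact hall y hadj hy
  omega

end

theorem gl (hL1 : StmtL1) (hGH : StmtGH) : StmtGL := by
  intro V _ T R hS hub h5 hex
  obtain ⟨u, u', hu, hu', huu⟩ := hex
  have hclosed : ∀ a b, (a ∉ R ∧ ∃ a' ∉ R, (sk T).Adj a a') → (sk T).Adj a b →
      (b ∉ R ∧ ∃ b' ∉ R, (sk T).Adj b b') := by
    rintro v w ⟨hv, v', hv', hvv⟩ hvw
    have hw : w ∉ R := by
      refine reach_closed (P := fun y => y ∉ R) ?_ (hS.link v v' w hvv hvw) hv'
      intro y z hy hyz hz
      exact claimB hL1 hGH hS hub h5 hv hz hy (lk_rot hyz.symm)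
    exact ⟨hw, v, hv, hvw.symm⟩
  rw [eq_empty_iff_forall_notMem]
  intro y
  exact (reach_closed hclosed (hS.conn.preconnected u y) ⟨hu, u', hu', huu⟩).1

end Pool.Agent.Helper22.KC
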